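import Pool.Agent.L0h82.GT.Stm

/-! Module JOR of the board GT: if one three-cycle is induced on five points then all are. -/

set_option autoImplicit false
set_option linter.all false

namespace Pool.Agent.L0h41.GT

open Pool.Agent.L0h82.GT Equiv MulAction

universe u

/-- the induced permutations of five points -/
def Ind {X : Type u} (G : Subgroup (Equiv.Perm X)) (u : Fin 5 → X) : Subgroup (Equiv.Perm (Fin 5)) where
  carrier := {σ | ∃ g ∈ G, ∀ i, g (u i) = u (σ i)}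
  one_mem' := ⟨1, G.one_mem, fun i => rfl⟩
  mul_mem' := by
    rintro σ τ ⟨g, hg, h1⟩ ⟨k, hk, h2⟩
    refine ⟨g * k, G.mul_mem hg hk, fun i => ?_⟩
    rw [Equiv.Perm.mul_apply, h2, h1, Equiv.Perm.mul_apply]
  inv_mem' := by
    rintro σ ⟨g, hg, h1⟩
    refine ⟨g⁻¹, G.inv_mem hg, fun i => ?_⟩
    rw [Equiv.Perm.inv_eq_iff_eq, h1]
    exact congrArg u (Equiv.apply_symm_apply σ i).symm

theorem mem_Ind {X : Type u} (G : Subgroup (Equiv.Perm X)) (u : Fin 5 → X) (σ : Equiv.Perm (Fin 5)) :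
    σ ∈ Ind G u ↔ ∃ g ∈ G, ∀ i, g (u i) = u (σ i) := Iff.rfl

/-- balanced subsets are trivial -/
theorem balanced : ∀ O : Finset (Fin 5), (∀ y a b c d : Fin 5, [y, a, b, c, d].Nodup →
    (O ∩ {a, b}).card = (O ∩ {c, d}).card) → O = ∅ ∨ O = Finset.univ := by
  decide +kernel

theorem five (y a b c d : Fin 5) (h : [y, a, b, c, d].Nodup) (i : Fin 5) :
    i = y ∨ i = a ∨ i = b ∨ i = c ∨ i = d := by
  revert y a b c d i
  decide +kernel

/-- a swap -/
theorem exists_swap {X : Type u} (G : Subgroup (Equiv.Perm X)) (u : Fin 5 → X) (hG : Gen G)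
    (hu : Function.Injective u) (y a b c d : Fin 5) (h : [y, a, b, c, d].Nodup) :
    ∃ σ ∈ Ind G u, (σ a = c ∨ σ a = d) ∧ (σ b = c ∨ σ b = d) ∧ (σ c = a ∨ σ c = b) ∧ (σ d = a ∨ σ d = b) := by
  classical
  have hya : y ≠ a := by rintro rfl; simp at h
  have hyb : y ≠ b := by rintro rfl; simp at h
  have hyc : y ≠ c := by rintro rfl; simp at h
  have hyd : y ≠ d := by rintro rfl; simp at h
  have hab : a ≠ b := by rintro rfl; simp at h
  have hac : a ≠ c := by rintro rfl; simp at h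
  have had : a ≠ d := by rintro rfl; simp at h
  have hbc : b ≠ c := by rintro rfl; simp at h
  have hbd : b ≠ d := by rintro rfl; simp at h
  have hcd : c ≠ d := by rintro rfl; simp at h
  have hA : ({u y, u a, u b} : Finset X).card = 3 := Finset.card_eq_three.2
    ⟨_, _, _, hu.ne hya, hu.ne hyb, hu.ne hab, rfl⟩
  have hB : ({u y, u c, u d} : Finset X).card = 3 := Finset.card_eq_three.2
    ⟨_, _, _, hu.ne hyc, hu.ne hyd, hu.ne hcd, rfl⟩
  obtain ⟨g, hg, h1, h2⟩ := hG _ _ hA hB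
  have e1 : ∀ i : Fin 5, (i = y ∨ i = a ∨ i = b) → ∃ j : Fin 5, (j = y ∨ j = c ∨ j = d) ∧ g (u i) = u j := by
    intro i hi
    have h3 := h1 (u i) (by rcases hi with rfl | rfl | rfl <;> simp)
    simp only [Finset.mem_insert, Finset.mem_singleton] at h3
    rcases h3 with h3 | h3 | h3
    · exact ⟨y, Or.inl rfl, h3⟩
    · exact ⟨c, Or.inr (Or.inl rfl), h3⟩
    · exact ⟨d, Or.inr (Or.inr rfl), h3⟩
  have e2 : ∀ i : Fin 5, (i = y ∨ i = c ∨ i = d) → ∃ j : Fin 5, (j = y ∨ j = a ∨ j = b) ∧ g (u i) = u j := by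
    intro i hi
    have h3 := h2 (u i) (by rcases hi with rfl | rfl | rfl <;> simp)
    simp only [Finset.mem_insert, Finset.mem_singleton] at h3
    rcases h3 with h3 | h3 | h3
    · exact ⟨y, Or.inl rfl, h3⟩
    · exact ⟨a, Or.inr (Or.inl rfl), h3⟩
    · exact ⟨b, Or.inr (Or.inr rfl), h3⟩
  have hall : ∀ i : Fin 5, ∃ j : Fin 5, g (u i) = u j := by
    intro i
    rcases five y a b c d h i with hi | hi | hi | hi | hi
    · obtain ⟨j, _, hj⟩ := e1 i (Or.inl hi); exact ⟨j, hj⟩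
    · obtain ⟨j, _, hj⟩ := e1 i (Or.inr (Or.inl hi)); exact ⟨j, hj⟩
    · obtain ⟨j, _, hj⟩ := e1 i (Or.inr (Or.inr hi)); exact ⟨j, hj⟩
    · obtain ⟨j, _, hj⟩ := e2 i (Or.inr (Or.inl hi)); exact ⟨j, hj⟩
    · obtain ⟨j, _, hj⟩ := e2 i (Or.inr (Or.inr hi)); exact ⟨j, hj⟩
  choose s hs using hall
  have hsinj : Function.Injective s := by
    intro i j hij
    apply hu
    apply g.injective
    rw [hs, hs, hij]
  let σ : Equiv.Perm (Fin 5) := Equiv.ofBijective s (Finite.injective_iff_bijective.1 hsinj)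
  have hσ : ∀ i, σ i = s i := fun i => rfl
  have f1 : ∀ i : Fin 5, (i = y ∨ i = a ∨ i = b) → (s i = y ∨ s i = c ∨ s i = d) := by
    intro i hi
    obtain ⟨j, hj, hj2⟩ := e1 i hi
    rw [hs] at hj2
    rw [hu hj2]
    exact hj
  have f2 : ∀ i : Fin 5, (i = y ∨ i = c ∨ i = d) → (s i = y ∨ s i = a ∨ s i = b) := by
    intro i hi
    obtain ⟨j, hj, hj2⟩ := e2 i hi
    rw [hs] at hj2
    rw [hu hj2]
    exact hj
  have hy : s y = y := by
    rcases f1 y (Or.inl rfl) with h3 | h3 | h3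
    · exact h3
    · rcases f2 y (Or.inl rfl) with h4 | h4 | h4
      · exact h4
      · exact absurd (h4.symm.trans h3) hac
      · exact absurd (h4.symm.trans h3) hbc
    · rcases f2 y (Or.inl rfl) with h4 | h4 | h4
      · exact h4
      · exact absurd (h4.symm.trans h3) had
      · exact absurd (h4.symm.trans h3) hbd
  have hne : ∀ i : Fin 5, i ≠ y → s i ≠ y := fun i hi h3 => hi (hsinj (h3.trans hy.symm))
  refine ⟨σ, ⟨g, hg, fun i => hs i⟩, ?_, ?_, ?_, ?_⟩
  · exact (f1 a (Or.inr (Or.inl rfl))).resolve_left (hne a hya.symm)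
  · exact (f1 b (Or.inr (Or.inr rfl))).resolve_left (hne b hyb.symm)
  · exact (f2 c (Or.inr (Or.inl rfl))).resolve_left (hne c hyc.symm)
  · exact (f2 d (Or.inr (Or.inr rfl))).resolve_left (hne d hyd.symm)

theorem card_balanced (O : Finset (Fin 5)) (σ : Equiv.Perm (Fin 5)) (hO : ∀ i, σ i ∈ O ↔ i ∈ O)
    (a b c d : Fin 5) (hab : a ≠ b) (hcd : c ≠ d) (h1 : σ a = c ∨ σ a = d) (h2 : σ b = c ∨ σ b = d) :
    (O ∩ {a, b}).card = (O ∩ {c, d}).card := by
  have hne : σ a ≠ σ b := σ.injective.ne hab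
  have h3 : ({c, d} : Finset (Fin 5)) = {σ a, σ b} := by
    rcases h1 with h1 | h1 <;> rcases h2 with h2 | h2
    · exact absurd (h1.trans h2.symm) hne
    · rw [h1, h2]
    · rw [h1, h2, Finset.pair_comm]
    · exact absurd (h1.trans h2.symm) hne
  rw [h3]
  refine Finset.card_bij (fun i _ => σ i) ?_ ?_ ?_
  · intro i hi
    rw [Finset.mem_inter, Finset.mem_insert, Finset.mem_singleton] at hi
    rw [Finset.mem_inter, Finset.mem_insert, Finset.mem_singleton]
    refine ⟨(hO i).2 hi.1, ?_⟩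
    rcases hi.2 with rfl | rfl
    · exact Or.inl rfl
    · exact Or.inr rfl
  · intro i _ j _ hij
    exact σ.injective hij
  · intro j hj
    rw [Finset.mem_inter, Finset.mem_insert, Finset.mem_singleton] at hj
    rcases hj.2 with rfl | rfl
    · refine ⟨a, ?_, rfl⟩
      rw [Finset.mem_inter]
      exact ⟨(hO a).1 hj.1, by simp⟩
    · refine ⟨b, ?_, rfl⟩
      rw [Finset.mem_inter]
      exact ⟨(hO b).1 hj.1, by simp⟩

theorem pretrans {X : Type u} (G : Subgroup (Equiv.Perm X)) (u : Fin 5 → X) (hG : Gen G)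
    (hu : Function.Injective u) : IsPretransitive (Ind G u) (Fin 5) := by
  classical
  constructor
  intro p q
  let O : Finset (Fin 5) := Finset.univ.filter fun i => ∃ σ ∈ Ind G u, σ p = i
  have hO : ∀ i, i ∈ O ↔ ∃ σ ∈ Ind G u, σ p = i := fun i => by simp [O]
  have hinv : ∀ τ ∈ Ind G u, ∀ i, τ i ∈ O ↔ i ∈ O := by
    intro τ hτ i
    rw [hO, hO]
    constructor
    · rintro ⟨σ, hσ, h1⟩
      refine ⟨τ⁻¹ * σ, (Ind G u).mul_mem ((Ind G u).inv_mem hτ) hσ, ?_⟩
      rw [Equiv.Perm.mul_apply, h1]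
      exact Equiv.symm_apply_apply τ i
    · rintro ⟨σ, hσ, h1⟩
      refine ⟨τ * σ, (Ind G u).mul_mem hτ hσ, ?_⟩
      rw [Equiv.Perm.mul_apply, h1]
  have hb := balanced O (fun y a b c d h => by
    obtain ⟨σ, hσ, h1, h2, _, _⟩ := exists_swap G u hG hu y a b c d h
    have hab : a ≠ b := by rintro rfl; simp at h
    have hcd : c ≠ d := by rintro rfl; simp at h
    exact card_balanced O σ (hinv σ hσ) a b c d hab hcd h1 h2)
  have hp : p ∈ O := (hO p).2 ⟨1, (Ind G u).one_mem, rfl⟩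
  rcases hb with hb | hb
  · rw [hb] at hp
    exact absurd hp (Finset.notMem_empty p)
  · have hq : q ∈ O := by rw [hb]; exact Finset.mem_univ q
    obtain ⟨σ, hσ, h1⟩ := (hO q).1 hq
    exact ⟨⟨σ, hσ⟩, h1⟩

theorem alt_le {X : Type u} (G : Subgroup (Equiv.Perm X)) (u : Fin 5 → X) (hG : Gen G)
    (hu : Function.Injective u) (σ : Equiv.Perm (Fin 5)) (h3 : σ.IsThreeCycle) (hσ : σ ∈ Ind G u) :
    alternatingGroup (Fin 5) ≤ Ind G u := by
  haveI := pretrans G u hG hu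
  have hp : IsPreprimitive (Ind G u) (Fin 5) := IsPreprimitive.of_prime_card (by
    rw [Nat.card_eq_fintype_card, Fintype.card_fin]
    norm_num)
  exact Equiv.Perm.alternatingGroup_le_of_isPreprimitive_of_isThreeCycle_mem hp h3 hσ

theorem cyc_val : ∀ a b c d e : Fin 5, [a, b, c, d, e].Nodup →
    (swap a b * swap b c) a = b ∧ (swap a b * swap b c) b = c ∧ (swap a b * swap b c) c = a ∧
    (swap a b * swap b c) d = d ∧ (swap a b * swap b c) e = e := by
  decide +kernel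

theorem cyc_three (a b c d e : Fin 5) (h : [a, b, c, d, e].Nodup) : (swap a b * swap b c).IsThreeCycle := by
  have hab : a ≠ b := by rintro rfl; simp at h
  have hac : a ≠ c := by rintro rfl; simp at h
  have hbc : b ≠ c := by rintro rfl; simp at h
  rw [swap_comm a b]
  exact Equiv.Perm.isThreeCycle_swap_mul_swap_same hab.symm hbc hac

/-- JOR -/
theorem t_JOR : S_JOR.{u} := by
  intro X G w hG hw hn a b c d e ha hb hc hd he h
  have hu : Function.Injective (fun i : Fin 5 => w i) := fun i j hij => Fin.ext (hw i.2 j.2 hij)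
  unfold NoC3 at hn
  push Not at hn
  obtain ⟨a', b', c', d', e', ha', hb', hc', hd', he', h', g, hg, g1, g2, g3, g4, g5⟩ := hn
  have key : ∀ a b c d e : ℕ, ∀ (ha : a < 5) (hb : b < 5) (hc : c < 5) (hd : d < 5) (he : e < 5),
      [a, b, c, d, e].Nodup → [(⟨a, ha⟩ : Fin 5), ⟨b, hb⟩, ⟨c, hc⟩, ⟨d, hd⟩, ⟨e, he⟩].Nodup := by
    intro a b c d e ha hb hc hd he h
    simp only [List.nodup_cons, List.mem_cons, List.not_mem_nil, or_false, not_or, Fin.mk.injEq, List.nodup_nil] at h ⊢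
    exact h
  have k' := key a' b' c' d' e' ha' hb' hc' hd' he' h'
  have k := key a b c d e ha hb hc hd he h
  obtain ⟨v1, v2, v3, v4, v5⟩ := cyc_val _ _ _ _ _ k'
  have hmem : (swap (⟨a', ha'⟩ : Fin 5) ⟨b', hb'⟩ * swap ⟨b', hb'⟩ ⟨c', hc'⟩) ∈ Ind G (fun i : Fin 5 => w i) := by
    refine ⟨g, hg, fun i => ?_⟩
    rcases five _ _ _ _ _ k' i with rfl | rfl | rfl | rfl | rfl
    · rw [v1]; exact g1
    · rw [v2]; exact g2
    · rw [v3]; exact g3
    · rw [v4]; exact g4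
    · rw [v5]; exact g5
  have hle := alt_le G _ hG hu _ (cyc_three _ _ _ _ _ k') hmem
  obtain ⟨f, hf, hf2⟩ := hle (cyc_three _ _ _ _ _ k).mem_alternatingGroup
  obtain ⟨w1, w2, w3, w4, w5⟩ := cyc_val _ _ _ _ _ k
  refine ⟨f, hf, ?_, ?_, ?_, ?_, ?_⟩
  · have := hf2 ⟨a, ha⟩; rw [w1] at this; exact this
  · have := hf2 ⟨b, hb⟩; rw [w2] at this; exact this
  · have := hf2 ⟨c, hc⟩; rw [w3] at this; exact this
  · have := hf2 ⟨d, hd⟩; rw [w4] at this; exact this
  · have := hf2 ⟨e, he⟩; rw [w5] at this; exact this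

end Pool.Agent.L0h41.GT
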