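import Pool.Agent.L0h82.GT.Stm

/-! Module K1 of the board GT: the structures for which all splits can be swapped. -/

set_option autoImplicit false
set_option linter.all false

namespace Pool.Agent.L0h41.GT

open Pool.Agent.L0h82.GT

/-- the conditions of invariance which involve the first `k` digits only -/
def good (h t k c : ℕ) : Bool :=
  (List.range k).all fun i => if dg h i < k then ac t i (dg c (dg h i)) == dg c i else true

/-- the search -/
def srch (h t : ℕ) : ℕ → ℕ → ℕ → Bool
  | 0, _, c => !swapOK c || L66.contains c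
  | n + 1, k, c => (List.range 6).all fun d => !good h t (k + 1) (c + d * 8 ^ k) || srch h t n (k + 1) (c + d * 8 ^ k)

/-- the first list -/
def L0 : List (ℕ × ℕ) := HL.headD []

set_option maxRecDepth 100000 in
theorem check : (L0.all fun e => srch e.1 e.2 6 0 0) = true := by decide +kernel

theorem dg_eq (c i : ℕ) : dg c i = c / 8 ^ i % 8 := by
  unfold dg
  rw [Nat.shiftRight_eq_div_pow, pow_mul]
  norm_num

theorem dg_mod (c k i : ℕ) (hi : i < k) : dg (c % 8 ^ k) i = dg c i := by
  rw [dg_eq, dg_eq]
  obtain ⟨m, rfl⟩ : ∃ m, k = i + (m + 1) := ⟨k - i - 1, by omega⟩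
  rw [pow_add, Nat.mod_mul_right_div_self, Nat.mod_mod_of_dvd]
  exact dvd_pow_self 8 (by omega)

theorem mod_succ (c k : ℕ) : c % 8 ^ k + dg c k * 8 ^ k = c % 8 ^ (k + 1) := by
  rw [dg_eq, Nat.mod_pow_succ, mul_comm]

theorem headD_mem {α : Type} (l : List α) (d : α) (h : l ≠ []) : l.headD d ∈ l := by
  cases l with
  | nil => exact absurd rfl h
  | cons a l => exact List.mem_cons_self

theorem srch_spec (h t c : ℕ) (hc : c < 8 ^ 6) (hd : ∀ i < 6, dg c i < 6) (hs : swapOK c = true)
    (hi : inv2 c c h t = true) : ∀ n k, k + n = 6 → srch h t n k (c % 8 ^ k) = true → c ∈ L66 := by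
  intro n
  induction n with
  | zero =>
    intro k hk hsr
    have hk6 : k = 6 := by omega
    subst hk6
    rw [Nat.mod_eq_of_lt hc] at hsr
    unfold srch at hsr
    rw [hs] at hsr
    simpa using hsr
  | succ n ih =>
    intro k hk hsr
    unfold srch at hsr
    rw [List.all_eq_true] at hsr
    have h1 := hsr (dg c k) (List.mem_range.2 (hd k (by omega)))
    rw [mod_succ] at h1
    have h2 : good h t (k + 1) (c % 8 ^ (k + 1)) = true := by
      unfold good
      rw [List.all_eq_true]
      intro i hik
      rw [List.mem_range] at hik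
      split_ifs with h3
      · rw [dg_mod c (k + 1) _ h3, dg_mod c (k + 1) i hik]
        unfold inv2 at hi
        rw [List.all_eq_true] at hi
        exact hi i (List.mem_range.2 (by omega))
      · rfl
    rw [h2] at h1
    exact ih (k + 1) (by omega) (by simpa using h1)

/-- K1 -/
theorem t_K1 : K1 := by
  intro c hc hd hs
  have h1 := hs
  unfold swapOK at h1
  rw [List.all_eq_true] at h1
  have h0 : L0 ∈ HL := headD_mem HL [] (by unfold HL; exact List.cons_ne_nil _ _)
  have h2 := h1 L0 h0
  rw [List.any_eq_true] at h2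
  obtain ⟨e, he, hi⟩ := h2
  have h3 := check
  rw [List.all_eq_true] at h3
  refine srch_spec e.1 e.2 c hc hd hs hi 6 0 rfl ?_
  have h4 : c % 8 ^ 0 = 0 := by rw [pow_zero, Nat.mod_one]
  rw [h4]
  exact h3 e he

end Pool.Agent.L0h41.GT
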